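import Pool.Agent.Mg.F656653.Gd59a72

open Pool.Agent.MP_c6cf52_lc Pool.Agent.MP_656653_lc

theorem Pool.Agent.Results.MP_656653_lc.UnivLots.result :
    ∃ (M : Type 2) (E : M → M → Prop), IsZFC E ∧ ∃ w w1 : M,
      (IsOrd E w ∧ IsLim E w ∧ ∀ a, E a w → ¬ IsLim E a) ∧
      (IsCard E w1 ∧ E w w1 ∧ ∀ m, IsCard E m → E w m → ¬ E m w1) ∧
      ∃ U S, Aron E w w1 U S ∧ ∀ A R, Aron E w w1 A R → ∃ f, LotsEmb E f A R U S :=
  Pool.Agent.MP_656653_lc.main
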